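import Mathlib

/-!
# Windows without elements of a sparse set

A set of `k`-tuples of positive integers which has few elements in all large boxes has no elements in small
windows around `(θ i g i (m) + h i (m))`, for almost every `θ` and all but finitely many `m`.
-/

set_option autoImplicit false

open Finset Filter MeasureTheory

namespace Pool.Agent.T6.H39.MW

variable {k : ℕ}

/-- the cube with the corner `c` -/
def Cube (c : Fin k → ℤ) : Set (Fin k → ℝ) := {θ | ∀ i, (c i : ℝ) ≤ θ i ∧ θ i < c i + 1}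

/-- the windows with an element of `R` -/
def BadW (R : (Fin k → ℕ) → Prop) (g h : Fin k → ℝ) (W : ℝ) : Set (Fin k → ℝ) :=
  {θ | ∃ A : Fin k → ℕ, (∀ i, 0 < A i) ∧ (∀ i, |(A i : ℝ) - (θ i * g i + h i)| ≤ W) ∧ R A}

theorem vol_bad (R : (Fin k → ℕ) → Prop) (g h : Fin k → ℝ) {W ρ : ℝ} {N : ℕ} (hN : 1 ≤ N)
    (hρ : 0 ≤ ρ)
    (hR : ∀ a M : Fin k → ℕ, (∀ i, N ≤ M i) →
      (({A : Fin k → ℕ | (∀ i, a i < A i ∧ A i ≤ a i + M i) ∧ R A}.ncard : ℕ) : ℝ) ≤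
        ρ * ∏ i, (M i : ℝ))
    (hg : ∀ i, (N : ℝ) ≤ g i) (hW : 1 ≤ W) (hWg : ∀ i, W ≤ g i) (c : Fin k → ℤ) :
    volume (Cube c ∩ BadW R g h W) ≤ ENNReal.ofReal ((12 : ℝ) ^ k * (ρ * W ^ k)) := by
  classical
  have hN1 : (1 : ℝ) ≤ N := by exact_mod_cast hN
  have hg1 : ∀ i, 1 ≤ g i := fun i => hN1.trans (hg i)
  have hg0 : ∀ i, 0 < g i := fun i => by linarith [hg1 i]
  obtain ⟨lo, hlo⟩ : ∃ lo : Fin k → ℝ, ∀ i, lo i = c i * g i + h i - W := ⟨_, fun _ => rfl⟩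
  obtain ⟨a, ha⟩ : ∃ a : Fin k → ℕ, ∀ i, a i = ⌈lo i⌉₊ - 1 := ⟨_, fun _ => rfl⟩
  obtain ⟨M, hM⟩ : ∃ M : Fin k → ℕ, ∀ i, M i = ⌈g i + 2 * W⌉₊ + 1 := ⟨_, fun _ => rfl⟩
  have hMg : ∀ i, g i + 2 * W ≤ (⌈g i + 2 * W⌉₊ : ℝ) := fun i => Nat.le_ceil _
  have hNM : ∀ i, N ≤ M i := by
    intro i
    have h1 : (N : ℝ) ≤ (M i : ℝ) := by
      rw [hM]
      push_cast
      linarith [hg i, hMg i]
    exact_mod_cast h1
  have hM6 : ∀ i, (M i : ℝ) ≤ 6 * g i := by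
    intro i
    have h1 : (⌈g i + 2 * W⌉₊ : ℝ) < g i + 2 * W + 1 := Nat.ceil_lt_add_one (by linarith [hg1 i])
    rw [hM]
    push_cast
    linarith [hg1 i, hWg i]
  have hfin : {A : Fin k → ℕ | (∀ i, a i < A i ∧ A i ≤ a i + M i) ∧ R A}.Finite := by
    apply Set.Finite.subset (Set.Finite.pi' fun i => Set.finite_Ioc (a i) (a i + M i))
    rintro A ⟨hA, -⟩ i
    exact ⟨(hA i).1, (hA i).2⟩
  have hsub : Cube c ∩ BadW R g h W ⊆ ⋃ A ∈ hfin.toFinset,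
      Set.Icc (fun i => ((A i : ℝ) - h i - W) / g i) (fun i => ((A i : ℝ) - h i + W) / g i) := by
    rintro θ ⟨hθ, A, hA0, hA, hRA⟩
    have hbd : ∀ i, lo i ≤ A i ∧ (A i : ℝ) ≤ lo i + (g i + 2 * W) := by
      intro i
      have h1 := abs_le.1 (hA i)
      have h2 : (c i : ℝ) * g i ≤ θ i * g i := mul_le_mul_of_nonneg_right (hθ i).1 (hg0 i).le
      have h3 : θ i * g i ≤ (c i + 1) * g i := mul_le_mul_of_nonneg_right (hθ i).2.le (hg0 i).le
      rw [hlo]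
      constructor <;> linarith [h1.1, h1.2]
    rw [Set.mem_iUnion₂]
    refine ⟨A, hfin.mem_toFinset.2 ⟨fun i => ?_, hRA⟩, ?_⟩
    · have h1 := hA0 i
      have h2 : ⌈lo i⌉₊ ≤ A i := Nat.ceil_le.2 (hbd i).1
      have h3 : A i ≤ ⌈lo i⌉₊ + ⌈g i + 2 * W⌉₊ := by
        have h4 : (A i : ℝ) ≤ (⌈lo i⌉₊ : ℝ) + (⌈g i + 2 * W⌉₊ : ℝ) :=
          (hbd i).2.trans (add_le_add (Nat.le_ceil _) (hMg i))
        exact_mod_cast h4
      rw [ha, hM]
      omega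
    · rw [Set.mem_Icc, Pi.le_def, Pi.le_def]
      constructor
      · intro i
        have h1 := abs_le.1 (hA i)
        show ((A i : ℝ) - h i - W) / g i ≤ θ i
        rw [div_le_iff₀ (hg0 i)]
        linarith [h1.2]
      · intro i
        have h1 := abs_le.1 (hA i)
        show θ i ≤ ((A i : ℝ) - h i + W) / g i
        rw [le_div_iff₀ (hg0 i)]
        linarith [h1.1]
  have hvol : ∀ A : Fin k → ℕ, volume (Set.Icc (fun i => ((A i : ℝ) - h i - W) / g i)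
      (fun i => ((A i : ℝ) - h i + W) / g i)) = ENNReal.ofReal (∏ i, (2 * W / g i)) := by
    intro A
    rw [Real.volume_Icc_pi, ENNReal.ofReal_prod_of_nonneg]
    · refine prod_congr rfl fun i _ => ?_
      congr 1
      have := (hg0 i).ne'
      field_simp
      ring
    · intro i _
      have := hg0 i
      positivity
  refine (measure_mono hsub).trans ((measure_biUnion_finset_le _ _).trans ?_)
  rw [sum_congr rfl fun A _ => hvol A, sum_const, nsmul_eq_mul, ← ENNReal.ofReal_natCast,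
    ← ENNReal.ofReal_mul (Nat.cast_nonneg _)]
  apply ENNReal.ofReal_le_ofReal
  have hprod0 : 0 ≤ ∏ i, (2 * W / g i) := prod_nonneg fun i _ => by
    have := hg0 i
    positivity
  have h1 := hR a M hNM
  rw [Set.ncard_eq_toFinset_card _ hfin] at h1
  calc (hfin.toFinset.card : ℝ) * ∏ i, (2 * W / g i)
      ≤ (ρ * ∏ i, (M i : ℝ)) * ∏ i, (2 * W / g i) := mul_le_mul_of_nonneg_right h1 hprod0
    _ = ρ * ∏ i, ((M i : ℝ) * (2 * W / g i)) := by rw [mul_assoc, prod_mul_distrib]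
    _ ≤ ρ * ∏ _i : Fin k, (12 * W) := by
        refine mul_le_mul_of_nonneg_left (prod_le_prod (fun i _ => ?_) fun i _ => ?_) hρ
        · have := hg0 i
          positivity
        · rw [← mul_div_assoc, div_le_iff₀ (hg0 i)]
          have h2 := mul_le_mul_of_nonneg_right (hM6 i) (by linarith : (0 : ℝ) ≤ 2 * W)
          linarith
    _ = (12 : ℝ) ^ k * (ρ * W ^ k) := by
        rw [prod_const, card_univ, Fintype.card_fin, mul_pow]
        ring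

theorem large {δ : ℝ} (hδ : 0 < δ) {N : ℕ → ℕ} {W : ℕ → ℝ} (hN : ∀ m, 1 ≤ N m)
    (hW : ∀ m, 1 ≤ W m) (hs : Summable fun m => (N m : ℝ) ^ (-δ) * W m ^ k) (N₀ : ℕ) :
    ∀ᶠ m in atTop, N₀ ≤ N m := by
  have h1 := hs.tendsto_atTop_zero
  have h2 : (0 : ℝ) < ((N₀ : ℝ) + 1) ^ (-δ) := by positivity
  filter_upwards [h1.eventually_lt_const h2] with m hm
  by_contra hcon
  push Not at hcon
  have h3 : (N m : ℝ) ≤ (N₀ : ℝ) + 1 := by
    have : (N m : ℝ) < N₀ := by exact_mod_cast hcon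
    linarith
  have h4 : (0 : ℝ) < N m := by
    have := hN m
    exact_mod_cast (by omega : 0 < N m)
  have h5 : ((N₀ : ℝ) + 1) ^ (-δ) ≤ (N m : ℝ) ^ (-δ) :=
    Real.rpow_le_rpow_of_nonpos h4 h3 (by linarith)
  have h6 : (N m : ℝ) ^ (-δ) ≤ (N m : ℝ) ^ (-δ) * W m ^ k :=
    le_mul_of_one_le_right (by positivity) (one_le_pow₀ (hW m))
  linarith

/-- **Windows.** -/
theorem win {δ : ℝ} (hδ : 0 < δ) (R : ℕ → (Fin k → ℕ) → Prop) (N₀ : ℕ)
    (hR : ∀ N : ℕ, N₀ ≤ N → ∀ a M : Fin k → ℕ, (∀ i, N ≤ M i) →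
      (({A : Fin k → ℕ | (∀ i, a i < A i ∧ A i ≤ a i + M i) ∧ R N A}.ncard : ℕ) : ℝ) ≤
        (N : ℝ) ^ (-δ) * ∏ i, (M i : ℝ))
    (g h : ℕ → Fin k → ℝ) (N : ℕ → ℕ) (W : ℕ → ℝ) (hN : ∀ m, 1 ≤ N m)
    (hg : ∀ m i, (N m : ℝ) ≤ g m i) (hW : ∀ m, 1 ≤ W m) (hWg : ∀ m i, W m ≤ g m i)
    (hs : Summable fun m => (N m : ℝ) ^ (-δ) * W m ^ k) :
    ∀ᵐ θ : Fin k → ℝ, ∀ᶠ m in atTop, ∀ A : Fin k → ℕ, (∀ i, 0 < A i) →
      (∀ i, |(A i : ℝ) - (θ i * g m i + h m i)| ≤ W m) → ¬ R (N m) A := by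
  have hlarge := large hδ hN hW hs N₀
  have key : ∀ c : Fin k → ℤ, ∀ᵐ θ : Fin k → ℝ, ∀ᶠ m in atTop,
      ¬ (N₀ ≤ N m ∧ θ ∈ Cube c ∩ BadW (R (N m)) (g m) (h m) (W m)) := by
    intro c
    have h1 : ∀ m, volume {θ : Fin k → ℝ | N₀ ≤ N m ∧
        θ ∈ Cube c ∩ BadW (R (N m)) (g m) (h m) (W m)} ≤
        ENNReal.ofReal ((12 : ℝ) ^ k * ((N m : ℝ) ^ (-δ) * W m ^ k)) := by
      intro m
      by_cases hm : N₀ ≤ N m
      · have h2 : {θ : Fin k → ℝ | N₀ ≤ N m ∧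
            θ ∈ Cube c ∩ BadW (R (N m)) (g m) (h m) (W m)} =
            Cube c ∩ BadW (R (N m)) (g m) (h m) (W m) := by
          ext θ
          exact ⟨fun h => h.2, fun h => ⟨hm, h⟩⟩
        rw [h2]
        exact vol_bad (R (N m)) (g m) (h m) (hN m) (by positivity) (hR (N m) hm) (hg m) (hW m)
          (hWg m) c
      · have h2 : {θ : Fin k → ℝ | N₀ ≤ N m ∧
            θ ∈ Cube c ∩ BadW (R (N m)) (g m) (h m) (W m)} = ∅ := by
          ext θ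
          exact ⟨fun h => hm h.1, fun h => h.elim⟩
        rw [h2, measure_empty]
        exact zero_le
    have h2 : ∑' m, volume {θ : Fin k → ℝ | N₀ ≤ N m ∧
        θ ∈ Cube c ∩ BadW (R (N m)) (g m) (h m) (W m)} ≠ ⊤ :=
      ne_top_of_le_ne_top (hs.mul_left ((12 : ℝ) ^ k)).tsum_ofReal_ne_top
        (ENNReal.tsum_le_tsum h1)
    exact ae_eventually_notMem h2
  rw [← ae_all_iff] at key
  filter_upwards [key] with θ hθ
  have h1 := hθ (fun i => ⌊θ i⌋)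
  filter_upwards [h1, hlarge] with m hm hm2 A hA0 hA hRA
  exact hm ⟨hm2, fun i => ⟨Int.floor_le _, Int.lt_floor_add_one _⟩, A, hA0, hA, hRA⟩

end Pool.Agent.T6.H39.MW
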